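import Pool.Agent.Work.MP_28e115_an.BallAlgebra
import Pool.Agent.Work.MP_28e115_an.SphereMeasure

/-!
# Bounded holomorphic functions on the ball with nonrectifiable radial images (Q1, answered yes)

Let `n ≥ 1` (the problem is for `n > 1`), `B` the open unit ball and `S` the unit sphere of `ℂⁿ`.

* `sigma n` is the normalised surface measure of `S`. It is a probability measure, concentrated on
  `S`, and invariant under all rotations (all linear isometries of `ℂⁿ` as a real inner product space,
  in particular all unitary maps).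
* There is a function `f` which is continuous on the closed ball, holomorphic in `B` and bounded by
  `1`, such that for `sigma n`-almost every `ζ ∈ S` the curve `r ↦ f (r ζ)`, `0 ≤ r < 1`, is
  nonrectifiable: the integral of `|d/dr f (r ζ)|` over `0 < r < 1` is infinite, and so is the total
  variation of the curve.
* More generally, for every finite Borel measure `σ` on `S` which is invariant under the
  multiplications by complex numbers of modulus one there is such an `f`, with respect to `σ`.

So the answer to Q1 is yes, in every dimension, even with `f` in the ball algebra. As `f ∈ H(B)`, this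
also answers Q2.
-/

set_option autoImplicit false

open Metric Set MeasureTheory

namespace Pool.Agent.Results.MP_28e115_an.FullAnswer

/-- The rotation invariant probability measure on the unit sphere `S` of `ℂⁿ`: the surface measure of
`S` divided by its total mass, regarded as a measure on `ℂⁿ` which is concentrated on `S`. -/
noncomputable def sigma (n : ℕ) : Measure (EuclideanSpace ℂ (Fin n)) :=
  ((volume : Measure (EuclideanSpace ℂ (Fin n))).toSphere univ)⁻¹ •
    (volume : Measure (EuclideanSpace ℂ (Fin n))).toSphere.map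
      (Subtype.val : sphere (0 : EuclideanSpace ℂ (Fin n)) 1 → EuclideanSpace ℂ (Fin n))

/-- The image of the radius ending at `ζ` is not rectifiable: the curve `r ↦ f (r ζ)`, `0 ≤ r < 1`,
has infinite length, in the form of the problem (`∫₀¹ |d/dr f (r ζ)| dr = ∞`) and in the form of the
total variation. -/
def Nonrectifiable {n : ℕ} (f : EuclideanSpace ℂ (Fin n) → ℂ) (ζ : EuclideanSpace ℂ (Fin n)) :
    Prop :=
  ∫⁻ r in Ioo (0 : ℝ) 1, ‖deriv (fun t : ℝ => f ((t : ℂ) • ζ)) r‖ₑ = ⊤ ∧
    eVariationOn (fun t : ℝ => f ((t : ℂ) • ζ)) (Ico (0 : ℝ) 1) = ⊤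

/-- `f` is holomorphic in the open unit ball `B` of `ℂⁿ`, continuous on the closed ball and bounded by
`1` there; in particular `f ∈ H^∞(B)`. -/
def InBallAlgebra {n : ℕ} (f : EuclideanSpace ℂ (Fin n) → ℂ) : Prop :=
  DifferentiableOn ℂ f (ball 0 1) ∧ ContinuousOn f (closedBall 0 1) ∧
    ∀ z ∈ closedBall (0 : EuclideanSpace ℂ (Fin n)) 1, ‖f z‖ ≤ 1

open Pool.Agent.Work.MP_28e115_an in
/-- The case of a finite measure invariant under multiplications by numbers of modulus one. -/
theorem circle_case {n : ℕ} (hn : 1 ≤ n) (σ : Measure (EuclideanSpace ℂ (Fin n)))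
    [IsFiniteMeasure σ] (hS : ∀ᵐ ζ ∂σ, ζ ∈ sphere (0 : EuclideanSpace ℂ (Fin n)) 1)
    (hinv : ∀ c : ℂ, ‖c‖ = 1 → σ.map (fun z => c • z) = σ) :
    ∃ f : EuclideanSpace ℂ (Fin n) → ℂ, InBallAlgebra f ∧ ∀ᵐ ζ ∂σ, Nonrectifiable f ζ := by
  have hS' : ∀ᵐ z ∂σ, ‖z‖ = 1 := hS.mono fun z hz => mem_sphere_zero_iff_norm.mp hz
  obtain ⟨f, hf0, hf1, hf2, hf3⟩ := exists_f_cont (σ := σ) hn hS' hinv
  refine ⟨f, ⟨hf1, hf0, fun z hz => hf2 z (mem_closedBall_zero_iff.mp hz)⟩, ?_⟩
  filter_upwards [hf3, hS'] with z hz hz1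
  have hvar : eVariationOn (fun t : ℝ => f ((t : ℂ) • z)) (Ico (0 : ℝ) 1) = ⊤ := by
    apply ENNReal.eq_top_of_forall_nnreal_le
    intro M
    obtain ⟨u, l, hu, hu1, hM⟩ := hz M
    have hsum := eVariationOn.sum_le (n := l) (f := fun t : ℝ => f ((t : ℂ) • z)) hu hu1
    refine le_trans ?_ hsum
    have h4 : ∀ i, edist (f (((u (i + 1) : ℝ) : ℂ) • z)) (f (((u i : ℝ) : ℂ) • z))
        = ENNReal.ofReal ‖f (((u (i + 1) : ℝ) : ℂ) • z) - f (((u i : ℝ) : ℂ) • z)‖ := by
      intro i
      rw [edist_dist, dist_eq_norm]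
    simp_rw [h4]
    rw [← ENNReal.ofReal_sum_of_nonneg (fun i _ => norm_nonneg _), ← ENNReal.ofReal_coe_nnreal]
    exact ENNReal.ofReal_le_ofReal hM
  refine ⟨?_, hvar⟩
  rw [eq_top_iff, ← hvar]
  apply eVariationOn_le_lintegral
  intro b hb
  -- the one variable function
  have h1 : DifferentiableOn ℂ (fun w : ℂ => f (w • z)) (ball 0 1) := by
    refine hf1.comp ((differentiable_id.smul_const z).differentiableOn) ?_
    intro w hw
    rw [mem_ball_zero_iff] at hw ⊢
    change ‖w • z‖ < 1
    rw [norm_smul, hz1, mul_one]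
    exact hw
  have h2 : ContDiffOn ℂ 1 (fun w : ℂ => f (w • z)) (ball 0 1) := h1.contDiffOn isOpen_ball
  have h3 : ContDiffOn ℝ 1 (fun w : ℂ => f (w • z)) (ball 0 1) := h2.restrict_scalars ℝ
  refine h3.comp (Complex.ofRealCLM.contDiff.contDiffOn) ?_
  intro t ht
  rw [mem_ball_zero_iff]
  change ‖(t : ℂ)‖ < 1
  rw [Complex.norm_real, Real.norm_of_nonneg ht.1]
  exact ht.2.trans_lt hb

open Pool.Agent.Work.MP_28e115_an in
/-- Let `n ≥ 1`. The measure `sigma n` is a probability measure concentrated on the unit sphere and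
invariant under all rotations. There is a function `f` on `ℂⁿ`, holomorphic in the open unit ball,
continuous on the closed unit ball and bounded by `1` there, such that for `sigma n`-almost every `ζ`
the image of the radius ending at `ζ` is nonrectifiable. The same is true for every finite measure `σ`
on the sphere, in place of `sigma n`, which is invariant under the maps `z ↦ c z`, `|c| = 1`. -/
theorem result (n : ℕ) (hn : 1 ≤ n) :
    (IsProbabilityMeasure (sigma n) ∧
      (∀ᵐ ζ ∂(sigma n), ζ ∈ sphere (0 : EuclideanSpace ℂ (Fin n)) 1) ∧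
      ∀ U : EuclideanSpace ℂ (Fin n) ≃ₗᵢ[ℝ] EuclideanSpace ℂ (Fin n),
        (sigma n).map U = sigma n) ∧
    (∃ f : EuclideanSpace ℂ (Fin n) → ℂ, InBallAlgebra f ∧ ∀ᵐ ζ ∂(sigma n), Nonrectifiable f ζ) ∧
    ∀ σ : Measure (EuclideanSpace ℂ (Fin n)), IsFiniteMeasure σ →
      (∀ᵐ ζ ∂σ, ζ ∈ sphere (0 : EuclideanSpace ℂ (Fin n)) 1) →
      (∀ c : ℂ, ‖c‖ = 1 → σ.map (fun z => c • z) = σ) →
      ∃ f : EuclideanSpace ℂ (Fin n) → ℂ, InBallAlgebra f ∧ ∀ᵐ ζ ∂σ, Nonrectifiable f ζ := by
  have hnt : Nontrivial (EuclideanSpace ℂ (Fin n)) := by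
    have : Nonempty (Fin n) := ⟨⟨0, hn⟩⟩
    infer_instance
  have hne : (volume : Measure (EuclideanSpace ℂ (Fin n))).toSphere univ ≠ 0 := by
    rw [Measure.measure_univ_ne_zero]
    exact Measure.toSphere_ne_zero _
  have h1 : IsProbabilityMeasure (sigma n) := ⟨by
    unfold sigma
    rw [Measure.smul_apply, smul_eq_mul, Measure.map_apply measurable_subtype_coe MeasurableSet.univ,
      preimage_univ, ENNReal.inv_mul_cancel hne (measure_ne_top _ _)]⟩
  have h2 : ∀ᵐ ζ ∂(sigma n), ζ ∈ sphere (0 : EuclideanSpace ℂ (Fin n)) 1 :=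
    Measure.ae_smul_measure surf_sphere _
  have h3 : ∀ U : EuclideanSpace ℂ (Fin n) ≃ₗᵢ[ℝ] EuclideanSpace ℂ (Fin n),
      (sigma n).map U = sigma n := by
    intro U
    have h := surf_map U
    unfold surf at h
    unfold sigma
    rw [Measure.map_smul, h]
  refine ⟨⟨h1, h2, h3⟩, ?_, fun σ hσ hS hinv => circle_case hn σ hS hinv⟩
  refine circle_case hn (sigma n) h2 ?_
  intro c hc
  have hc0 : c ≠ 0 := by
    intro h
    rw [h, norm_zero] at hc
    exact zero_ne_one hc
  let U : EuclideanSpace ℂ (Fin n) ≃ₗᵢ[ℝ] EuclideanSpace ℂ (Fin n) :=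
    { toFun := fun z => c • z
      invFun := fun z => c⁻¹ • z
      left_inv := fun z => by
        change c⁻¹ • (c • z) = z
        rw [smul_smul, inv_mul_cancel₀ hc0, one_smul]
      right_inv := fun z => by
        change c • (c⁻¹ • z) = z
        rw [smul_smul, mul_inv_cancel₀ hc0, one_smul]
      map_add' := fun x y => smul_add c x y
      map_smul' := fun r x => smul_comm c r x
      norm_map' := fun x => by
        change ‖c • x‖ = ‖x‖
        rw [norm_smul, hc, one_mul] }
  exact h3 U

end Pool.Agent.Results.MP_28e115_an.FullAnswer
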